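import Mathlib
import Pool.Agent.H803R3.Eff

/-!
Powers of edge ideals of gap-free graphs: if `reg I(G) = n` then `I(G)^s` has a linear
resolution for every `s ≥ n - 1`.
-/

set_option autoImplicit false

namespace Pool.Agent.Results.MP_e9bb92_al.LinearPowers

open Pool.Agent.H803R3

/-- If `G` is a gap-free graph with at least one edge and `reg I(G) = n`, then
`reg I(G)^s = 2 s` for every integer `s ≥ n - 1`, over every field. -/
theorem result (K : Type*) [Field K] {m : ℕ} (G : SimpleGraph (Fin m))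
    (hE : ∃ a b, G.Adj a b)
    (hG : ∀ a b c d, G.Adj a b → G.Adj c d → a ≠ c → a ≠ d → b ≠ c → b ≠ d →
      G.Adj a c ∨ G.Adj a d ∨ G.Adj b c ∨ G.Adj b d)
    (n : ℕ) (hn : reg (edgeIdeal K G) = (n : ℕ∞)) (s : ℕ) (hs : n ≤ s + 1) :
    reg (edgeIdeal K G ^ s) = ((2 * s : ℕ) : ℕ∞) := by
  apply reg_pow_eq G hE hG s
  rw [hn]
  exact_mod_cast hs

end Pool.Agent.Results.MP_e9bb92_al.LinearPowers
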